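import Pool.Agent.K3h8.GG.Stm

/-!
# The dimension of the span of the permutation operators (brick DIM)
-/

set_option autoImplicit false

open Equiv (Perm)

noncomputable section

namespace Pool.Agent.K3h92.GG

open Pool.Agent.K3h8.GG Pool.Agent.K3h85.PG

/-- the matrix entries of an operator -/
def Phi (d n : ℕ) : Module.End ℚ ((Fin n → Fin d) → ℚ) →ₗ[ℚ]
    ((Fin n → Fin d) × (Fin n → Fin d) → ℚ) where
  toFun f := fun p => f (Pi.single p.2 1) p.1
  map_add' _ _ := rfl
  map_smul' _ _ := rfl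

/-- the matrix with the rows `Phi (act σ)` -/
def B (d n : ℕ) : Matrix (Perm (Fin n)) ((Fin n → Fin d) × (Fin n → Fin d)) ℚ :=
  fun σ => Phi d n (act d n σ)

theorem B_apply (d n : ℕ) (σ : Perm (Fin n)) (p : (Fin n → Fin d) × (Fin n → Fin d)) :
    B d n σ p = if p.1 ∘ σ = p.2 then 1 else 0 := by
  change act d n σ (Pi.single p.2 1) p.1 = _
  rw [act_apply, Pi.single_apply]

theorem fixM_eq (d n : ℕ) : fixM n (Fin d) = B d n * (B d n).transpose := by
  ext σ τ
  rw [Matrix.mul_apply]
  simp only [Matrix.transpose_apply, B_apply]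
  rw [Fintype.sum_prod_type]
  simp only [fixM]
  have h1 : ∀ w : Fin n → Fin d, (∑ w' : Fin n → Fin d,
      (if w ∘ σ = w' then (1 : ℚ) else 0) * (if w ∘ τ = w' then 1 else 0)) =
      if w ∘ σ = w ∘ τ then 1 else 0 := by
    intro w
    rw [Finset.sum_eq_single (w ∘ σ)]
    · simp only [if_true, one_mul]
      by_cases h : w ∘ σ = w ∘ τ
      · rw [if_pos h, if_pos h.symm]
      · rw [if_neg h, if_neg (fun h' => h h'.symm)]
    · intro w' _ hw'
      rw [if_neg (fun h => hw' h.symm), zero_mul]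
    · intro h
      exact absurd (Finset.mem_univ _) h
  simp only [h1]
  rw [Finset.sum_ite, Finset.sum_const, Finset.sum_const_zero, add_zero, nsmul_eq_mul, mul_one]
  rw [fixN, Fintype.card_subtype]
  congr 1
  refine Finset.card_bij (fun c _ => c ∘ (τ⁻¹ : Perm (Fin n))) ?_ ?_ ?_
  · intro w hw
    rw [Finset.mem_filter] at hw ⊢
    refine ⟨Finset.mem_univ _, ?_⟩
    have h2 : (w ∘ (τ⁻¹ : Perm (Fin n))) ∘ σ = w ∘ (τ⁻¹ * σ : Perm (Fin n)) := by
      funext i
      simp
    have h3 : (w ∘ (τ⁻¹ : Perm (Fin n))) ∘ τ = w := by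
      funext i
      simp
    rw [h2, h3, hw.2]
  · intro w _ w' _ h
    funext i
    have := congrFun h (τ i)
    simpa using this
  · intro u hu
    rw [Finset.mem_filter] at hu
    refine ⟨u ∘ τ, ?_, ?_⟩
    · rw [Finset.mem_filter]
      refine ⟨Finset.mem_univ _, ?_⟩
      have h2 : (u ∘ τ) ∘ (τ⁻¹ * σ : Perm (Fin n)) = u ∘ σ := by
        funext i
        simp
      rw [h2, hu.2]
    · funext i
      simp

theorem t_DIM : S_DIM := by
  intro d n
  have h1 := rank_fixM n (Fin d)
  rw [Fintype.card_fin] at h1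
  refine h1.trans (Nat.mul_le_mul_right _ ?_)
  rw [fixM_eq]
  refine (Matrix.rank_mul_le_left _ _).trans ?_
  rw [Matrix.rank_eq_finrank_span_row]
  have h2 : Set.range (B d n).row = Phi d n '' Set.range (act d n) := by
    rw [← Set.range_comp]
    rfl
  rw [h2, ← Submodule.map_span]
  exact Submodule.finrank_map_le _ _

end Pool.Agent.K3h92.GG
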